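import Mathlib
import Pool.Agent.R659.PConj

/-!
MP_eab232_al, Q2: there is one finite monadic confluent rewriting system, with monoid `M`, such
that p-conjugacy in `M` is undecidable, even to a fixed word.
-/

set_option autoImplicit false

namespace Pool.Agent.Results.MP_eab232_al.PConjUndecidable

open Relation Pool.Agent.R659.TwoOne Pool.Agent.R659

/-- One rewriting step of the system `R`. -/
def Step {A : Type} (R : List (List A × List A)) (x y : List A) : Prop :=
  ∃ p ∈ R, ∃ u v : List A, x = u ++ p.1 ++ v ∧ y = u ++ p.2 ++ v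

/-- The system is monadic: the right sides have length at most one and the rules reduce the
length. -/
def Monadic {A : Type} (R : List (List A × List A)) : Prop :=
  ∀ p ∈ R, p.2.length ≤ 1 ∧ p.2.length < p.1.length

/-- The system is confluent. -/
def Confluent {A : Type} (R : List (List A × List A)) : Prop :=
  ∀ u v w : List A, ReflTransGen (Step R) u v → ReflTransGen (Step R) u w →
    ∃ z, ReflTransGen (Step R) v z ∧ ReflTransGen (Step R) w z

/-- The relations of the presentation, as a relation on the free monoid. -/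
def Rels {A : Type} (R : List (List A × List A)) (x y : FreeMonoid A) : Prop :=
  (FreeMonoid.toList x, FreeMonoid.toList y) ∈ R

/-- The monoid presented by the system. -/
abbrev Mon {A : Type} (R : List (List A × List A)) : Type := (conGen (Rels R)).Quotient

/-- The element of the monoid represented by a word. -/
def cls {A : Type} (R : List (List A × List A)) (w : List A) : Mon R :=
  ((FreeMonoid.ofList w : FreeMonoid A) : (conGen (Rels R)).Quotient)

/-- p-conjugacy in a monoid. -/
def PConj {M : Type} [Monoid M] (a b : M) : Prop := ∃ u v : M, a = u * v ∧ b = v * u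

theorem step_iff {n : ℕ} (ρ : Fin n → Fin n → Option (Fin n)) (x y : List (Fin n)) :
    Step (rules ρ) x y ↔ St ρ x y := by
  constructor
  · rintro ⟨p, hp, u, v, rfl, rfl⟩
    obtain ⟨s, t, r, h, rfl⟩ := mem_rules.1 hp
    exact ⟨u, v, s, t, r, h, by simp, by simp⟩
  · rintro ⟨u, v, s, t, r, h, rfl, rfl⟩
    exact ⟨_, mem_rules.2 ⟨s, t, r, h, rfl⟩, u, v, by simp, by simp⟩

theorem rels_eq {n : ℕ} (ρ : Fin n → Fin n → Option (Fin n)) : Rels (rules ρ) = rel ρ := by
  funext x y
  apply propext
  constructor
  · intro h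
    obtain ⟨s, t, r, h, e⟩ := mem_rules.1 h
    rw [Prod.mk.injEq] at e
    exact ⟨s, t, r, h, e.1, e.2⟩
  · rintro ⟨s, t, r, h, rfl, rfl⟩
    exact mem_rules.2 ⟨s, t, r, h, rfl⟩

theorem cls_eq_iff {n : ℕ} {ρ : Fin n → Fin n → Option (Fin n)} (hc : CP ρ)
    (x y : List (Fin n)) : cls (rules ρ) x = cls (rules ρ) y ↔ run ρ [] x = run ρ [] y := by
  unfold cls
  rw [Con.eq, rels_eq, con_iff hc]

theorem cls_append {n : ℕ} (R : List (List (Fin n) × List (Fin n))) (x y : List (Fin n)) :
    cls R (x ++ y) = cls R x * cls R y := rfl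

theorem cls_surj {n : ℕ} (R : List (List (Fin n) × List (Fin n))) (m : Mon R) :
    ∃ x, cls R x = m := by
  induction m using Con.induction_on with
  | H x => exact ⟨FreeMonoid.toList x, rfl⟩

theorem pconj_iff {n : ℕ} {ρ : Fin n → Fin n → Option (Fin n)} (hc : CP ρ)
    (a b : List (Fin n)) :
    PConj (cls (rules ρ) a) (cls (rules ρ) b) ↔ PConj.PC ρ a b := by
  constructor
  · rintro ⟨u, v, h1, h2⟩
    obtain ⟨x, rfl⟩ := cls_surj _ u
    obtain ⟨y, rfl⟩ := cls_surj _ v
    rw [← cls_append, cls_eq_iff hc] at h1 h2
    exact ⟨x, y, h1.symm, h2.symm⟩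
  · rintro ⟨x, y, h1, h2⟩
    refine ⟨cls _ x, cls _ y, ?_, ?_⟩
    · rw [← cls_append, cls_eq_iff hc, h1]
    · rw [← cls_append, cls_eq_iff hc, h2]

/-- There is one finite, monadic, confluent rewriting system whose monoid has undecidable
p-conjugacy problem; even p-conjugacy to one fixed word is undecidable. -/
theorem result : ∃ (n : ℕ) (R : List (List (Fin n) × List (Fin n))),
    Monadic R ∧ Confluent R ∧
    (¬ ComputablePred fun p : List (Fin n) × List (Fin n) => PConj (cls R p.1) (cls R p.2)) ∧
    ∃ b : List (Fin n), ¬ ComputablePred fun w : List (Fin n) => PConj (cls R w) (cls R b) := by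
  obtain ⟨n, ρ, b, f, hc, hf, hnc⟩ := PConj.finite_system
  have hb : ¬ ComputablePred fun w : List (Fin n) =>
      PConj (cls (rules ρ) w) (cls (rules ρ) b) := by
    intro h
    apply hnc
    obtain ⟨g, hg, e⟩ := ComputablePred.computable_iff.1 h
    refine ComputablePred.computable_iff.2 ⟨fun k => g (f k), hg.comp hf, ?_⟩
    funext k
    have := congrFun e (f k)
    simp only [pconj_iff hc] at this
    exact this
  refine ⟨n, rules ρ, ?_, ?_, ?_, b, hb⟩
  · intro p hp
    obtain ⟨s, t, r, _, rfl⟩ := mem_rules.1 hp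
    simp
  · intro u v w h1 h2
    have e : Step (rules ρ) = St ρ := by
      funext x y
      exact propext (step_iff ρ x y)
    rw [e] at h1 h2 ⊢
    exact confluent hc h1 h2
  · intro h
    apply hb
    obtain ⟨g, hg, e⟩ := ComputablePred.computable_iff.1 h
    refine ComputablePred.computable_iff.2
      ⟨fun w => g (w, b), hg.comp (Computable.id.pair (Computable.const b)), ?_⟩
    funext w
    exact congrFun e (w, b)

end Pool.Agent.Results.MP_eab232_al.PConjUndecidable
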